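import Pool.Agent.N204.HR.Stm5

/-!
HR/LA (helper530): rational linear algebra.
-/

set_option autoImplicit false

namespace Pool.Agent.N530.HR

theorem la_aux (E V : Type) [Field E] [CharZero E] [AddCommGroup V] [Module E V]
    (B : V → V → E) (P Q : Set V)
    (hadd : ∀ y x x', B y (x + x') = B y x + B y x')
    (hsmul : ∀ y (c : E) x, B y (c • x) = c * B y x)
    (h0 : (0 : V) ∈ P) (hP : ∀ x ∈ P, ∀ y ∈ P, x + y ∈ P)
    (hPr : ∀ x ∈ P, ∀ r : ℚ, (r : E) • x ∈ P)
    (hrat : ∀ x ∈ P, ∀ y ∈ Q, ∃ r : ℚ, B y x = r)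
    (hnd : ∀ x ∈ Submodule.span E P, (∀ y ∈ Q, B y x = 0) → x = 0) :
    ∀ x ∈ Submodule.span E P, (∀ y ∈ Q, ∃ r : ℚ, B y x = r) → x ∈ P := by
  obtain ⟨p, hp⟩ : ∃ p : E →ₗ[ℚ] ℚ, ∀ r : ℚ, p (r : E) = r := by
    obtain ⟨g, hg⟩ := LinearMap.exists_leftInverse_of_injective (Algebra.linearMap ℚ E)
      (LinearMap.ker_eq_bot.2 (algebraMap ℚ E).injective)
    refine ⟨g, fun r => ?_⟩
    have := LinearMap.congr_fun hg r
    simpa using this
  have hpm : ∀ (c : E) (r : ℚ), p (c * r) = p c * r := by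
    intro c r
    have : c * (r : E) = r • c := by rw [Rat.smul_def, mul_comm]
    rw [this, map_smul, smul_eq_mul, mul_comm]
  have hB0 : ∀ y, B y 0 = 0 := by
    intro y
    have := hsmul y 0 0
    rwa [zero_smul, zero_mul] at this
  have key : ∀ x ∈ Submodule.span E P, ∀ c : E, ∃ x' ∈ P, ∀ y ∈ Q,
      B y x' = ((p (c * B y x) : ℚ) : E) := by
    intro x hx
    induction hx using Submodule.span_induction with
    | mem x hx =>
      intro c
      refine ⟨((p c : ℚ) : E) • x, hPr x hx _, fun y hy => ?_⟩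
      obtain ⟨r, hr⟩ := hrat x hx y hy
      rw [hsmul, hr, hpm]
      push_cast
      rfl
    | zero =>
      intro c
      refine ⟨0, h0, fun y _ => ?_⟩
      rw [hB0, mul_zero, map_zero, Rat.cast_zero]
    | add x z _ _ hx hz =>
      intro c
      obtain ⟨x', hx', h1⟩ := hx c
      obtain ⟨z', hz', h2⟩ := hz c
      refine ⟨x' + z', hP _ hx' _ hz', fun y hy => ?_⟩
      rw [hadd, hadd, h1 y hy, h2 y hy, mul_add, map_add, Rat.cast_add]
    | smul a x _ hx =>
      intro c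
      obtain ⟨x', hx', h1⟩ := hx (c * a)
      refine ⟨x', hx', fun y hy => ?_⟩
      rw [h1 y hy, hsmul, mul_assoc]
  intro x hx hq
  obtain ⟨x', hx', h1⟩ := key x hx 1
  have h2 : x + (-1 : E) • x' = 0 := by
    refine hnd _ (Submodule.add_mem _ hx (Submodule.smul_mem _ _ (Submodule.subset_span hx'))) ?_
    intro y hy
    obtain ⟨r, hr⟩ := hq y hy
    rw [hadd, hsmul, h1 y hy, hr, one_mul, hp]
    ring
  have h3 : x = x' := by
    rw [neg_one_smul, ← sub_eq_add_neg, sub_eq_zero] at h2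
    exact h2
  rwa [h3]

theorem la : Pool.Agent.N204.HR.S_LA := by
  intro E V _ _ _ _ _ B P Q h1 h2 h3 h4 h5 h6 h7
  exact la_aux E V B P Q h1 h2 h3 h4 h5 h6 h7

end Pool.Agent.N530.HR
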